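import Mathlib
import Pool.Agent.Q11.PSDefs
import Pool.Agent.Q11.PSCat
import Pool.Agent.Q11.PSFinal

set_option autoImplicit false

namespace Pool.Agent.Results.MP_b5e7a1_al.DetectsParrySullivan

open CategoryTheory CategoryTheory.Limits Q11.PS

/-- There is a category `C` with binary coproducts such that finite irreducible directed graphs
`G`, `H` with equivalent categories of diagrams (satisfying the coproduct condition) in `C` have
the same Parry-Sullivan number. -/
theorem result : ∃ (C : Type 1) (_ : Category.{0} C) (_ : HasBinaryCoproducts C),
    ∀ (G H : Graph) [Finite G.V] [Finite H.V], (∀ a b, Finite (G.E a b)) →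
      (∀ a b, Finite (H.E a b)) → Irreducible G → Irreducible H →
      Nonempty (Diag C G ≌ Diag C H) → parrySullivan G = parrySullivan H :=
  ⟨LObj, inferInstance, inferInstance, fun G H _ _ hGf hHf hG hH ⟨Φ⟩ =>
    main G H hGf hHf hG hH Φ⟩

end Pool.Agent.Results.MP_b5e7a1_al.DetectsParrySullivan
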